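import Pool.Agent.H86.CM5.Level

set_option autoImplicit false

/-!
# The period conjecture for abelian varieties of CM type of dimension at most five, and for classes
# of one level on all abelian varieties of CM type

Let `X` be an abelian variety with complex multiplication over the field `ℚ̄` of all algebraic
numbers. A de Rham-Betti class of degree `2 k` is a class `f ∈ H^{2k}(X, ℚ)` such that `(2 π i) ^ k f`
lies in `H^{2k}_dR(X / ℚ̄)`; so these classes (times `(2 π i) ^ k`) are the elements of
`H^{2k}_Gr(X, ℚ(k))`. The conjecture `GPC ^ k (X)` says that they are combinations of classes of
algebraic cycles. Up to isogeny `X` is a product of abelian varieties `A i` with complex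
multiplication by CM fields `E i` of CM types `Φ i` (`CMAV`). The dimension of `X` is half of the sum
of the degrees of the fields `E i`. There is no condition on the fields `E i` and on the types
`Φ i` in this file: the `A i` may be simple or not, isogenous or not, and nothing is assumed about
the Galois groups.

**Theorem.**

1. If `dim X ≤ 5`, then in all degrees the de Rham-Betti classes on `X` are exactly the Hodge classes.
2. Let `A i` be abelian varieties of CM type such that the sum of their dimensions is at most `3`. Then
   in all degrees the de Rham-Betti classes on all products `X` of any number of copies of the `A i` are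
   exactly the Hodge classes.
3. Let `X` be of CM type, of any dimension, and let `f ∈ H^{2k}(X, ℚ)` be a de Rham-Betti class. Assume
   that, for some number `N`, only the Hodge components of `f` of the types `(p, q)` with
   `p - q = 0`, `N` or `-N` are different from zero (`OneLevel`). Then `f` is a Hodge class. In
   particular (`N = 2`) all de Rham-Betti classes in `F^{k-1} H^{2k}` are Hodge classes, for all `k`.

By the theorem of Lefschetz, the results of Moonen and Zarhin and the theorem of Markman on the Weil
classes on abelian fourfolds, the Hodge classes on abelian varieties of dimension at most `5` are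
algebraic; so `GPC ^ k (X)` holds for all `k` and all `X` of CM type of dimension at most `5`.

The periods enter as a `PeriodSystem` (helper537): a nonzero number `θ A φ` for every CM type
`A = (E, Φ)` and every embedding `φ` of `E`, such that the theorem of Bost (de Rham-Betti classes of
degree two on abelian varieties of CM type are Hodge classes; a consequence of the theorem of
Wüstholz) and the theorem of Deligne (Hodge classes on abelian varieties are de Rham-Betti classes)
hold. Both are theorems for the true periods.

The proof: Let `G` be the Galois group of a Galois CM field containing the conjugates of the `E i`, and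
`c ∈ G` the complex conjugation. An embedding `w` of some `E i` gives a function `s w : G → {1, -1}`
with `s w (c g) = - s w g`, and a monomial, which is a product of eigenforms, gives a sum `B` of such
functions. It has the Hodge type `(d, d)` if and only if `B = 0`. The theorems of Bost and
Deligne, applied to auxiliary abelian varieties of CM type, show that `B = 0` for the monomials in a
de Rham-Betti class if, in the case `B ≠ 0`, some integral combination of the right translates of `B`
is nonzero and has the values `0`, `N`, `-N` only (helper537, helper925). If `dim X ≤ 5`, then `B`
is, up to pairs of conjugate embeddings, a sum of two or four functions `s w` out of at most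
five pairs. In the case of four out of five pairs the missing pair may have `1`, …, `5` conjugates
under `G`, and in each case one finds such a combination, or a contradiction.
-/

namespace Pool.Agent.Results.MP_bf54cf_ag.CMDimensionFive

open NumberField Module Pool.Agent.H204R3.CM Pool.Agent.W547.KB Pool.Agent.W537.PC
  Pool.Agent.H86.CM5

/-- **De Rham-Betti classes are Hodge classes on abelian varieties of CM type of dimension at most
five, on products of copies of abelian varieties of CM type of total dimension at most three, and, in
any dimension, if they have at most one level besides the middle.** -/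
theorem result (P : PeriodSystem) (hBost : P.Bost) (hDeligne : P.Deligne) :
    -- 1
    (∀ X : CMAV, ∑ i, finrank ℚ (X.factor i).E ≤ 2 * 5 →
      ∀ (k : ℕ) (f : X.H1 [⋀^Fin (2 * k)]→ₗ[ℚ] ℚ), P.IsDRB X k f ↔ IsHodge X.per f) ∧
    -- 2
    (∀ {ι : Type} [Fintype ι] (A : ι → CMPair), ∑ i, finrank ℚ (A i).E ≤ 2 * 3 →
      ∀ {J : Type} [Fintype J] (t : J → ι) (k : ℕ)
        (f : (⟨J, fun l => A (t l)⟩ : CMAV).H1 [⋀^Fin (2 * k)]→ₗ[ℚ] ℚ),
        P.IsDRB (⟨J, fun l => A (t l)⟩ : CMAV) k f ↔
          IsHodge (⟨J, fun l => A (t l)⟩ : CMAV).per f) ∧
    -- 3
    (∀ (X : CMAV) (k N : ℕ) (f : X.H1 [⋀^Fin (2 * k)]→ₗ[ℚ] ℚ),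
      OneLevel X.per N f → P.IsDRB X k f → IsHodge X.per f) :=
  ⟨fun X hX k f => ⟨hodge_of_drb_five P hBost hDeligne X hX k f, hDeligne X k f⟩,
    fun A hA _ _ t k f => ⟨hodge_of_drb_three P hBost hDeligne A hA t k f,
      hDeligne (⟨_, fun l => A (t l)⟩ : CMAV) k f⟩,
    fun X k N f hN hf => hodge_of_drb_level P hBost hDeligne X k N f hf hN⟩

end Pool.Agent.Results.MP_bf54cf_ag.CMDimensionFive
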