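import Pool.Agent.H88.GP.PerFam

/-!
# The Grothendieck period conjecture for products of a variety with varieties of odd dimension
-/

open Pool.Agent.H914 Pool.Agent.H914.VarClass Pool.Agent.H914.VarClass.Obj
  Pool.Agent.H914.WeilCohomology Pool.Agent.H281R3.HT Pool.Agent.H88.FL Pool.Agent.H88.GP

universe u

namespace Pool.Agent.Results.MP_bf54cf_ag.RankTwoFamilyFiniteLevel

/-- **The period conjecture for all products of `Z` with members of a family of varieties whose
transcendental cohomology has dimension two (for example, elliptic curves without complex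
multiplication) follows from the conjecture for finitely many levels.** -/
theorem result {k : Type u} [Field k] {𝒱 : VarClass k} {ops : CycleOps 𝒱}
    {W : WeilCohomology.{u, 0} ops} [Algebra W.K ℂ] {F : Subfield ℂ} [IsAlgClosed F]
    {D : DeRham W F} {ι : Type} [DecidableEq ι] {P : ι → Polarized 𝒱} (h : RankTwoFamily D P)
    {Z : Polarized 𝒱} (hZ : Z.X.IsCyc 1 Z.D) (hL : HardLefschetz W Z.X Z.D) :
    (∀ (n : ℕ) (c : Fin n → ι) (j : ℕ), GPC D (mixProd ops Z n fun s => P (c s)).X j) ↔
    (∀ j, GPC D Z.X j) ∧ ∀ (n : ℕ) (c : Fin n → ι), 0 < n →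
      (∃ e ≤ Z.X.dim, Even (n + e) ∧ n < transRank W Z e ∧
        level c ≤ transRank W Z e) →
      ∀ j, GPC D (mixProd ops Z n fun s => P (c s)).X j := by
  rw [finite_level h hZ hL]
  refine and_congr_right fun _ => forall_congr' fun n => forall_congr' fun c =>
    imp_congr_right fun _ => ?_
  constructor
  · rintro h1 ⟨e, he, hev, _, hle⟩
    exact h1 ⟨e, he, hev, hle⟩
  · rintro h1 ⟨e, he, hev, hle⟩
    exact h1 ⟨e, he, hev, lt_of_lt_of_le (lt_level c) hle, hle⟩

end Pool.Agent.Results.MP_bf54cf_ag.RankTwoFamilyFiniteLevel
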