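import Pool.Agent.H86.CM6.E8

set_option autoImplicit false

/-!
# The period conjecture for cycles of codimension two on abelian varieties whose factors of type IV
# have complex multiplication

Let `A` be an abelian variety of any dimension `g` over the field `ℚ̄` of algebraic numbers. A
de Rham-Betti class in `H^4(A)(2)` is an alternating form `φ` with rational values in four variables
in `H_1(A, ℚ)` such that `(2 π i) ^ 2 φ` is a combination with algebraic coefficients of the products
of the elements of `H^1_dR(A / ℚ̄)`. Nothing is assumed about periods: `AbVar` is the description of
an abelian variety over `ℚ̄` by theta functions (see the file `AVDefs`, where it is explained why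
every abelian variety has it), and Deligne's theorem on absolute Hodge classes is not used.

Up to isogeny `A` is a product `B × C`, where `B` has no simple factor of type IV and all simple
factors of `C` are of type IV.

**Theorem.** Assume that

* `C` has complex multiplication, and its dimension is at most five;
* the dimension of `B` is at most four;
* no imaginary quadratic field in the centre of the algebra of endomorphisms acts on a part of
  dimension four or more: if `D` is a central endomorphism, skew-symmetric for the polarization, with
  `D ^ 3 = c D`, `c ∈ ℚ`, then the image of `D` has dimension less than `8` (in the homology).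

Then all de Rham-Betti classes in `H^4(A)(2)` are Hodge classes. More precisely they are annihilated
by all endomorphisms `X` of `H_1(A, ℚ)` which commute with the endomorphisms of `A` and are
skew-symmetric for the polarization (the Lie algebra of the Lefschetz group). So if `B` is not a
simple fourfold of type III they are combinations of products of divisor classes (Weyl, Tankeev,
Murty, Milne), and in the remaining case the Hodge classes on `B` are known to be algebraic. So we
have `GPC ^ 2 (A)`. In dimension `g ≤ 5` the conjecture `GPC ^ k (A)` follows for all `k` (the
theorem of Bost for divisors, and the hard Lefschetz theorem). The third assumption is natural: if an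
imaginary quadratic field acts on a part of dimension four then there are the classes of Weil in
`H^4`.

Examples: all abelian varieties with complex multiplication of dimension at most five, simple or not,
with the third property (for instance the products of simple abelian surfaces, threefolds and
elliptic curves with complex multiplication whose CM fields contain no common imaginary quadratic
field), and their products with an abelian variety `B` of dimension at most four without factors of
type IV, for instance with `End B = ℤ`. Nothing is assumed about the Hodge group or the Galois groups
of the CM fields. For `C = 0` the theorem is contained in `FourfoldsNoTypeIV` (in an earlier library);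
the new part is `C ≠ 0`. For *simple* abelian fourfolds with complex multiplication a stronger result
(also if there is an imaginary quadratic field) is due to Zekun Ji; his proof uses Deligne's theorem.

## Proof

Let `𝔥` be the Lie algebra of the endomorphisms of `H_1(A, ℚ)` that annihilate all de Rham-Betti
classes. By the theorem of Schneider and Lang (proved in the imported files) it acts semisimply on
`H_1(A, ℚ)` and has the commutant `End(A)`.

* Let `ε` be the idempotent of `B`. As `C` has complex multiplication `(1 - ε) X` is central for all
  `X ∈ 𝔥`, so it commutes with all commutators. As `𝔥` is generated by its commutators and its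
  centre, `ε X` and `(1 - ε) X` are in `𝔥`. There are no invariant vectors. So `φ` can be split
  into five parts, with `j` variables in `B` and `4 - j` in `C`, and the parts with `j = 1`, `3` vanish.
* The part with `j = 2`: bilinear forms which are annihilated by `𝔥` are given by endomorphisms.
* The part with `j = 4`, `dim B ≤ 3`: the contraction of four-forms with the symplectic form is
  injective, and gives a bilinear form. If `dim B = 4` we apply the classification of the possible
  Lie algebras `𝔥 ⊗ ℂ` on `H_1(B, ℂ)` of the earlier library, extended to a direct factor.
* The part with `j = 0` is the main point. Here `𝔥 ⊗ ℂ` acts diagonally; let `χ` be the characters of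
  the centre on the eigenvectors (the embeddings of the CM fields), with multiplicities `μ`. Different
  characters are different on `𝔥`. A component of `φ` gives a relation `χ_1 + χ_2 + χ_3 + χ_4 = 0`
  on `𝔥`, that is an integral odd function `n` on the characters, with `|n| ≤ μ` and `∑ |n| = 8`,
  unless the relation is trivial. The relations form a lattice `R` stable under the automorphisms of
  `ℂ`. As `∑ μ ≤ 10`, two conjugates of `n` can be compared: a combinatorial argument (the orbit of the
  deficient pair has two, three, four or five elements; in each case one combines a few conjugates to
  a relation of weight at most four, which is impossible) shows that there is an odd function `s` with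
  values `0`, `1`, `-1`, whose support has total multiplicity at least eight, and which is invariant
  up to the sign. By descent `s` gives a central skew-symmetric endomorphism `D` with `D ^ 3 = c D`
  and of rank at least eight, which was excluded.
-/

open Module Pool.Agent.Y102 Pool.Agent.W516.DR Pool.Agent.H204R3.GP

noncomputable section

namespace Pool.Agent.Results.MP_bf54cf_ag.SmallCMPart

variable {g : ℕ} (A : AbVar g)

/-- The alternating forms in four variables in the rational homology: the elements of
`H^4(A, ℚ)`. -/
abbrev Form : Type := A.H1 [⋀^Fin 2 × Fin 2]→ₗ[ℚ] ℚ

/-- `φ` is a de Rham-Betti class in `H^4(A)(2)`. -/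
def IsDRB (φ : Form A) : Prop :=
  IsDeRhamBettiForm QBar A.dR (2 * Real.pi * Complex.I) 2 φ.toMultilinearMap

/-- `φ` is a Hodge class in `H^4(A)(2)`. -/
def IsHodge (φ : Form A) : Prop :=
  IsHodgeTensor (A.per : A.H1 →+ (Fin g → ℂ)) φ.toMultilinearMap

/-- The endomorphisms of `A`, up to isogeny: the endomorphisms of `H_1(A, ℚ)` which respect the
de Rham cohomology over the field of algebraic numbers. -/
def IsEndomorphism (P : Module.End ℚ A.H1) : Prop := IsDeRhamBettiEnd QBar A.dR P

/-- The Riemann form of the polarization, on the rational homology. -/
def polarization : A.H1 →ₗ[ℚ] A.H1 →ₗ[ℚ] ℚ := A.om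

/-- `X` is skew-symmetric for the polarization. -/
def IsSkewSymmetric (X : Module.End ℚ A.H1) : Prop :=
  ∀ u v, polarization A (X u) v + polarization A u (X v) = 0

/-- `X` is in the Lie algebra of the Lefschetz group: it is skew-symmetric and commutes with the
endomorphisms of `A`. -/
def IsLefschetz (X : Module.End ℚ A.H1) : Prop :=
  IsSkewSymmetric A X ∧ ∀ Q, IsEndomorphism A Q → X * Q = Q * X

/-- `R` is an endomorphism which is skew-symmetric and central in the algebra of endomorphisms. The
images of such `R` are in the homology of the factor `C` of type IV, and for some of them the image is
the homology of `C`. -/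
def IsCentralSkew (R : Module.End ℚ A.H1) : Prop :=
  IsEndomorphism A R ∧ IsSkewSymmetric A R ∧ ∀ Q, IsEndomorphism A Q → R * Q = Q * R

/-- The factors of type IV have complex multiplication: on them the elements of the Lie algebra of
the Lefschetz group are endomorphisms. -/
def TypeIVFactorsHaveCM : Prop :=
  ∀ R, IsCentralSkew A R → ∀ X, IsLefschetz A X → IsEndomorphism A (R * X)

/-- The part of `A` of type IV has dimension at most five. -/
def TypeIVPartAtMostFive : Prop :=
  ∀ R, IsCentralSkew A R → finrank ℚ (LinearMap.range R) ≤ 10

/-- The part of `A` without factors of type IV has dimension at most four. -/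
def OtherPartAtMostFour : Prop :=
  ∃ R, IsCentralSkew A R ∧ 2 * g ≤ finrank ℚ (LinearMap.range R) + 8

/-- No imaginary quadratic field in the centre of the algebra of endomorphisms acts on a part of
dimension at least four. -/
def NoQuadraticFieldOfRankFour : Prop :=
  ∀ D, IsCentralSkew A D → ∀ c : ℚ, D * D * D = c • D → finrank ℚ (LinearMap.range D) < 8

/-- The endomorphism `X` annihilates the form `φ` (as a derivation). -/
def Annihilates (X : Module.End ℚ A.H1) (φ : Form A) : Prop :=
  ∀ v, ∑ k, φ (Function.update v k (X (v k))) = 0

/-- **The de Rham-Betti classes of degree four on abelian varieties whose factors of type IV have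
complex multiplication.** -/
theorem result (hIV : TypeIVFactorsHaveCM A) (h5 : TypeIVPartAtMostFive A)
    (h4 : OtherPartAtMostFour A) (hK : NoQuadraticFieldOfRankFour A) (φ : Form A)
    (hφ : IsDRB A φ) :
    IsHodge A φ ∧ ∀ X : Module.End ℚ A.H1, IsLefschetz A X → Annihilates A X φ := by
  have hZA : ∀ R : Module.End ℚ A.H1, R ∈ A.ZA ↔ IsCentralSkew A R := by
    intro R
    constructor
    · rintro ⟨h1, h2, h3⟩
      exact ⟨A.mem_EA.1 h1, h2, fun Q hQ => h3 Q (A.mem_EA.2 hQ)⟩
    · rintro ⟨h1, h2, h3⟩
      exact ⟨A.mem_EA.2 h1, h2, fun Q hQ => h3 Q (A.mem_EA.1 hQ)⟩
  have hLf : ∀ X : Module.End ℚ A.H1, Pool.Agent.H86.CM6.Lf A X ↔ IsLefschetz A X := by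
    intro X
    constructor
    · rintro ⟨h1, h2⟩
      exact ⟨h1, fun Q hQ => h2 Q (A.mem_EA.2 hQ)⟩
    · rintro ⟨h1, h2⟩
      exact ⟨h1, fun Q hQ => h2 Q (A.mem_EA.1 hQ)⟩
  have key : ∀ Z, Pool.Agent.H86.CM6.Lf A Z →
      Pool.Agent.H204R3.SP.Kills Z φ.toMultilinearMap := by
    intro Z hZ
    refine Pool.Agent.H86.CM6.kills_four
      (fun R hR X hX => A.mem_EA.2 (hIV R ((hZA R).1 hR) X ((hLf X).1 hX)))
      (fun D hD c hc => hK D ((hZA D).1 hD) c hc) (fun R hR => h5 R ((hZA R).1 hR)) ?_ φ hφ hZ
    obtain ⟨R, hR, h6⟩ := h4
    exact ⟨R, (hZA R).2 hR, h6⟩
  exact ⟨Pool.Agent.H86.CM6.hodge_of_lf key, fun X hX => key X ((hLf X).2 hX)⟩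

end Pool.Agent.Results.MP_bf54cf_ag.SmallCMPart
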