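import Pool.Agent.H86.CM6.E8

set_option autoImplicit false

/-!
# The period conjecture for cycles of every codimension on products of an abelian variety with complex
# multiplication of dimension at most five and of abelian surfaces and elliptic curves

Let `A` be an abelian variety of any dimension `g` over the field `ℚ̄` of algebraic numbers. A
de Rham-Betti class in `H^{2k}(A)(k)` is an alternating form `φ` with rational values in `2 k`
variables in `H_1(A, ℚ)` such that `(2 π i) ^ k φ` is a combination with algebraic coefficients of the
products of the elements of `H^1_dR(A / ℚ̄)`. Nothing is assumed about periods: `AbVar` is the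
description of an abelian variety over `ℚ̄` by theta functions (see the file `AVDefs`, where it is
explained why every abelian variety has it), and Deligne's theorem on absolute Hodge classes is not
used.

Up to isogeny `A` is a product `B × C`, where `B` has no simple factor of type IV and all simple
factors of `C` are of type IV.

**Theorem.** Assume that

* `C` has complex multiplication, and its dimension is at most five;
* no imaginary quadratic field in the centre of the algebra of endomorphisms acts on a part of
  dimension four or more: if `D` is a central endomorphism, skew-symmetric for the polarization, with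
  `D ^ 3 = c D`, `c ∈ ℚ`, then the image of `D` has dimension less than `8` (in the homology);
* the common eigenspaces of the centre of the algebra of endomorphisms on `H_1(B, ℂ)` have dimension
  at most four. There is no condition on the dimension of `B`.

Let `k` be any integer. Then all de Rham-Betti classes in `H^{2k}(A)(k)` are Hodge classes. More
precisely they are annihilated by all endomorphisms `X` of `H_1(A, ℚ)` which commute with the
endomorphisms of `A` and are skew-symmetric for the polarization (the Lie algebra of the Lefschetz
group). There are no factors of type III here, so by the classical invariant theory (Weyl, Tankeev,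
Murty, Milne) the classes are combinations of products of divisor classes, and we have
`GPC ^ k (A)` for all `k`.

The third condition holds if `B = 0`; if `B` is a product of pairwise non-isogenous simple abelian
surfaces without complex multiplication and of powers, with exponents at most two, of pairwise
non-isogenous elliptic curves without complex multiplication; also for factors with real
multiplication by fields of degree `dim` or `dim / 2`. So the theorem covers for instance, for all `k`,

* all abelian varieties with complex multiplication of dimension at most five, simple or not, with
  the second property, without any assumption on the Galois groups;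
* the products of such a `C` with any number of pairwise non-isogenous surfaces with `End = ℤ` and of
  elliptic curves without complex multiplication.

For `C = 0` the theorem is contained in `ProductsOfSurfaces` (in an earlier library); the new part is
`C ≠ 0`. For *simple* abelian fourfolds with complex multiplication a stronger result is due to Zekun
Ji; his proof uses Deligne's theorem.

## Proof

Let `𝔥` be the Lie algebra of the endomorphisms of `H_1(A, ℚ)` that annihilate all de Rham-Betti
classes. By the theorem of Schneider and Lang (proved in the imported files) it acts semisimply on
`H_1(A, ℚ)` and has the commutant `End(A)`.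

* Let `ε` be the idempotent of `B`. As `C` has complex multiplication `(1 - ε) X` is central for all
  `X ∈ 𝔥`, so it commutes with all commutators. As `𝔥` is generated by its commutators and its
  centre, `ε X` and `(1 - ε) X` are in `𝔥`. So `φ` can be split into parts, with `j` variables in
  `B` and `2 k - j` in `C`, and the two groups of variables can be treated separately.
* In the variables in `B` we apply the theorem on the Lie algebras with small isotypic components of
  the earlier library, extended to a direct factor. So `φ` is annihilated by the Lefschetz Lie
  algebra in these variables, and by the complex structure, whence the parts with `j` odd vanish.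
* In the variables in `C` the Lie algebra `𝔥 ⊗ ℂ` acts diagonally; let `χ` be the characters of the
  centre on the eigenvectors. A component of `φ` gives a relation between an even number of different
  eigenvectors. As there are at most ten eigenvectors, with sum zero, we can pass to the complement
  and assume that the number is at most four. Relations between two characters are trivial since
  different characters are different on `𝔥`. A nontrivial relation between four characters gives, by a
  combinatorial argument with its conjugates under the automorphisms of `ℂ`, a central
  skew-symmetric endomorphism `D` with `D ^ 3 = c D` and of rank at least eight, which was excluded.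
-/

open Module TensorProduct Pool.Agent.Y102 Pool.Agent.W516.DR Pool.Agent.H204R3.GP

noncomputable section

namespace Pool.Agent.Results.MP_bf54cf_ag.SmallCMPartAllDegrees

variable {g : ℕ} (A : AbVar g)

/-- The alternating forms in `2 k` variables in the rational homology: the elements of
`H^{2k}(A, ℚ)`. -/
abbrev Form (k : ℕ) : Type := A.H1 [⋀^Fin k × Fin 2]→ₗ[ℚ] ℚ

/-- `φ` is a de Rham-Betti class in `H^{2k}(A)(k)`. -/
def IsDRB {k : ℕ} (φ : Form A k) : Prop :=
  IsDeRhamBettiForm QBar A.dR (2 * Real.pi * Complex.I) k φ.toMultilinearMap

/-- `φ` is a Hodge class in `H^{2k}(A)(k)`. -/
def IsHodge {k : ℕ} (φ : Form A k) : Prop :=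
  IsHodgeTensor (A.per : A.H1 →+ (Fin g → ℂ)) φ.toMultilinearMap

/-- The endomorphisms of `A`, up to isogeny: the endomorphisms of `H_1(A, ℚ)` which respect the
de Rham cohomology over the field of algebraic numbers. -/
def IsEndomorphism (P : Module.End ℚ A.H1) : Prop := IsDeRhamBettiEnd QBar A.dR P

/-- `P` is in the centre of the algebra of the endomorphisms. -/
def IsCentral (P : Module.End ℚ A.H1) : Prop :=
  IsEndomorphism A P ∧ ∀ Q, IsEndomorphism A Q → P * Q = Q * P

/-- The Riemann form of the polarization, on the rational homology. -/
def polarization : A.H1 →ₗ[ℚ] A.H1 →ₗ[ℚ] ℚ := A.om

/-- `X` is skew-symmetric for the polarization. -/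
def IsSkewSymmetric (X : Module.End ℚ A.H1) : Prop :=
  ∀ u v, polarization A (X u) v + polarization A u (X v) = 0

/-- `X` is in the Lie algebra of the Lefschetz group: it is skew-symmetric and commutes with the
endomorphisms of `A`. -/
def IsLefschetz (X : Module.End ℚ A.H1) : Prop :=
  IsSkewSymmetric A X ∧ ∀ Q, IsEndomorphism A Q → X * Q = Q * X

/-- `R` is an endomorphism which is skew-symmetric and central in the algebra of endomorphisms. The
images of such `R` are in the homology of the factor `C` of type IV, and for some of them the image is
the homology of `C`. -/
def IsCentralSkew (R : Module.End ℚ A.H1) : Prop := IsCentral A R ∧ IsSkewSymmetric A R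

/-- The factors of type IV have complex multiplication: on them the elements of the Lie algebra of
the Lefschetz group are endomorphisms. -/
def TypeIVFactorsHaveCM : Prop :=
  ∀ R, IsCentralSkew A R → ∀ X, IsLefschetz A X → IsEndomorphism A (R * X)

/-- The part of `A` of type IV has dimension at most five. -/
def TypeIVPartAtMostFive : Prop :=
  ∀ R, IsCentralSkew A R → finrank ℚ (LinearMap.range R) ≤ 10

/-- No imaginary quadratic field in the centre of the algebra of endomorphisms acts on a part of
dimension at least four. -/
def NoQuadraticFieldOfRankFour : Prop :=
  ∀ D, IsCentralSkew A D → ∀ c : ℚ, D * D * D = c • D → finrank ℚ (LinearMap.range D) < 8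

/-- The common eigenspace in `H_1(A, ℂ)` of the centre of the algebra of the endomorphisms, with the
eigenvalues `c P`. -/
def centralEigenspace (c : Module.End ℚ A.H1 → ℂ) : Submodule ℂ (ℂ ⊗[ℚ] A.H1) where
  carrier := {u | ∀ P, IsCentral A P → P.baseChange ℂ u = c P • u}
  zero_mem' := fun P _ => by rw [map_zero, smul_zero]
  add_mem' := fun {u v} hu hv P hP => by rw [map_add, hu P hP, hv P hP, smul_add]
  smul_mem' := fun r u hu P hP => by rw [map_smul, hu P hP, smul_comm]

/-- The common eigenspaces of the centre on the homology of the factor `B` without factors of type IV
have dimension at most four. These are the eigenspaces on which the central skew-symmetric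
endomorphisms are zero. -/
def SmallEigenspaces : Prop :=
  ∀ c : Module.End ℚ A.H1 → ℂ, (∀ R, IsCentralSkew A R → c R = 0) →
    finrank ℂ (centralEigenspace A c) ≤ 4

/-- The endomorphism `X` annihilates the form `φ` (as a derivation). -/
def Annihilates {k : ℕ} (X : Module.End ℚ A.H1) (φ : Form A k) : Prop :=
  ∀ v, ∑ l, φ (Function.update v l (X (v l))) = 0

/-- **The de Rham-Betti classes of every degree on abelian varieties whose factors of type IV have
complex multiplication, and whose other factors have small eigenspaces.** -/
theorem result (hIV : TypeIVFactorsHaveCM A) (h5 : TypeIVPartAtMostFive A)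
    (hK : NoQuadraticFieldOfRankFour A) (hE : SmallEigenspaces A) {k : ℕ} (φ : Form A k)
    (hφ : IsDRB A φ) :
    IsHodge A φ ∧ ∀ X : Module.End ℚ A.H1, IsLefschetz A X → Annihilates A X φ := by
  have hZA : ∀ R : Module.End ℚ A.H1, R ∈ A.ZA ↔ IsCentralSkew A R := by
    intro R
    constructor
    · rintro ⟨h1, h2, h3⟩
      exact ⟨⟨A.mem_EA.1 h1, fun Q hQ => h3 Q (A.mem_EA.2 hQ)⟩, h2⟩
    · rintro ⟨⟨h1, h3⟩, h2⟩
      exact ⟨A.mem_EA.2 h1, h2, fun Q hQ => h3 Q (A.mem_EA.1 hQ)⟩
  have hLf : ∀ X : Module.End ℚ A.H1, Pool.Agent.H86.CM6.Lf A X ↔ IsLefschetz A X := by
    intro X
    constructor
    · rintro ⟨h1, h2⟩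
      exact ⟨h1, fun Q hQ => h2 Q (A.mem_EA.2 hQ)⟩
    · rintro ⟨h1, h2⟩
      exact ⟨h1, fun Q hQ => h2 Q (A.mem_EA.1 hQ)⟩
  have key : ∀ Z, Pool.Agent.H86.CM6.Lf A Z →
      Pool.Agent.H204R3.SP.Kills Z φ.toMultilinearMap := by
    intro Z hZ
    refine Pool.Agent.H86.CM6.kills_even
      (fun R hR X hX => A.mem_EA.2 (hIV R ((hZA R).1 hR) X ((hLf X).1 hX)))
      (fun D hD c hc => hK D ((hZA D).1 hD) c hc) (fun R hR => h5 R ((hZA R).1 hR)) ?_ φ hφ hZ
    intro c hc
    refine (Submodule.finrank_mono fun u hu P hP => ?_).trans
      (hE c fun R hR => hc R ((hZA R).2 hR))
    exact hu P ⟨A.mem_EA.2 hP.1, fun Q hQ => hP.2 Q (A.mem_EA.1 hQ)⟩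
  exact ⟨Pool.Agent.H86.CM6.hodge_of_lf key, fun X hX => key X ((hLf X).2 hX)⟩

end Pool.Agent.Results.MP_bf54cf_ag.SmallCMPartAllDegrees
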